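import Pool.Agent.TH111.DW.K1

/-!
# Homotheties contract the Kobayashi distance (job 1625, helper111)
-/

set_option autoImplicit false

namespace Pool.TH332.DW
open Metric Set Filter Topology
variable {E : Type*} [NormedAddCommGroup E] [NormedSpace ℂ E] {Ω : Set E}

namespace H111

/-! ### Moebius transformations -/

/-- the Moebius transformation with `0 ↦ a` -/
noncomputable def mob (a ζ : ℂ) : ℂ := (ζ + a) / (1 + (starRingEnd ℂ) a * ζ)

theorem mob_den {a ζ : ℂ} (ha : ‖a‖ < 1) (hζ : ‖ζ‖ < 1) : 1 + (starRingEnd ℂ) a * ζ ≠ 0 := by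
  have := den_ne (a := a) (b := -ζ) ha (by rwa [norm_neg])
  rwa [mul_neg, sub_neg_eq_add] at this

theorem mob_mem {a ζ : ℂ} (ha : ‖a‖ < 1) (hζ : ‖ζ‖ < 1) : ‖mob a ζ‖ < 1 := by
  unfold mob
  rw [norm_div, div_lt_one (norm_pos_iff.2 (mob_den ha hζ))]
  refine lt_of_pow_lt_pow_left₀ 2 (norm_nonneg _) ?_
  have h1 := key_id a (-ζ)
  rw [mul_neg, sub_neg_eq_add, sub_neg_eq_add, norm_neg, add_comm a ζ] at h1
  have h2 : 0 < (1 - ‖a‖ ^ 2) * (1 - ‖ζ‖ ^ 2) := by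
    apply mul_pos
    · nlinarith [norm_nonneg a]
    · nlinarith [norm_nonneg ζ]
  linarith

theorem mob_zero (a : ℂ) : mob a 0 = a := by
  unfold mob
  simp

theorem mob_diff {a : ℂ} (ha : ‖a‖ < 1) : DifferentiableOn ℂ (mob a) (ball 0 1) := by
  unfold mob
  refine DifferentiableOn.div (by fun_prop) (by fun_prop) ?_
  intro ζ hζ
  exact mob_den ha (by simpa using hζ)

theorem mob_maps {a : ℂ} (ha : ‖a‖ < 1) : MapsTo (mob a) (ball 0 1) (ball 0 1) := by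
  intro ζ hζ
  rw [mem_ball_zero_iff] at hζ ⊢
  exact mob_mem ha hζ

/-- normalization of a disc through two points -/
theorem normalize (φ : ℂ → E) (a b : ℂ) (hφ : DifferentiableOn ℂ φ (ball 0 1))
    (hm : MapsTo φ (ball 0 1) Ω) (ha : a ∈ ball (0 : ℂ) 1) (hb : b ∈ ball (0 : ℂ) 1) :
    ∃ ψ : ℂ → E, DifferentiableOn ℂ ψ (ball 0 1) ∧ MapsTo ψ (ball 0 1) Ω ∧ ψ 0 = φ a ∧
      ψ (mm a b : ℂ) = φ b := by
  rw [mem_ball_zero_iff] at ha hb
  set D : ℂ := 1 - (starRingEnd ℂ) a * b with hD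
  have hD0 : D ≠ 0 := den_ne ha hb
  set ζb : ℂ := (b - a) / D with hζb
  have hn : ‖ζb‖ = mm a b := by
    rw [hζb]
    unfold mm
    rw [norm_div, norm_div, norm_sub_rev]
  obtain ⟨u, hu1, hu2⟩ : ∃ u : ℂ, ‖u‖ ≤ 1 ∧ u * (mm a b : ℂ) = ζb := by
    by_cases h0 : ζb = 0
    · refine ⟨0, by simp, ?_⟩
      rw [h0, zero_mul]
    · have h1 : ‖ζb‖ ≠ 0 := norm_ne_zero_iff.2 h0
      refine ⟨ζb / (‖ζb‖ : ℂ), ?_, ?_⟩
      · rw [norm_div, Complex.norm_real, norm_norm, div_self h1]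
      · rw [← hn, div_mul_cancel₀]
        exact_mod_cast h1
  have hmap : MapsTo (fun ζ : ℂ => u * ζ) (ball 0 1) (ball (0 : ℂ) 1) := by
    intro ζ hζ
    rw [mem_ball_zero_iff] at hζ ⊢
    rw [norm_mul]
    nlinarith [norm_nonneg ζ, norm_nonneg u]
  refine ⟨fun ζ => φ (mob a (u * ζ)), ?_, ?_, ?_, ?_⟩
  · exact hφ.comp ((mob_diff ha).comp (by fun_prop) hmap) ((mob_maps ha).comp hmap)
  · exact hm.comp ((mob_maps ha).comp hmap)
  · change φ (mob a (u * 0)) = φ a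
    rw [mul_zero, mob_zero]
  · change φ (mob a (u * (mm a b : ℂ))) = φ b
    rw [hu2]
    congr 1
    unfold mob
    have haa : 1 - (starRingEnd ℂ) a * a ≠ 0 := den_ne ha ha
    have h1 : ζb + a = b * (1 - (starRingEnd ℂ) a * a) / D := by
      rw [hζb]
      field_simp
      rw [hD]
      ring
    have h2 : 1 + (starRingEnd ℂ) a * ζb = (1 - (starRingEnd ℂ) a * a) / D := by
      rw [hζb]
      field_simp
      rw [hD]
      ring
    rw [h1, h2]
    field_simp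

/-! ### the hyperbolic tangent -/

/-- `tanh` -/
noncomputable def th (s : ℝ) : ℝ := (Real.exp (2 * s) - 1) / (Real.exp (2 * s) + 1)

theorem th_nonneg {s : ℝ} (hs : 0 ≤ s) : 0 ≤ th s := by
  unfold th
  have : 1 ≤ Real.exp (2 * s) := Real.one_le_exp (by linarith)
  apply div_nonneg <;> linarith

theorem th_lt (s : ℝ) : th s < 1 := by
  unfold th
  rw [div_lt_one (by positivity)]
  linarith

theorem th_zero : th 0 = 0 := by
  unfold th
  simp

theorem th_pos {s : ℝ} (hs : 0 < s) : 0 < th s := by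
  unfold th
  have : 1 < Real.exp (2 * s) := by
    rw [Real.one_lt_exp_iff]
    linarith
  apply div_pos <;> linarith

theorem th_le_half {s : ℝ} (hs : s ≤ 1 / 2) : th s ≤ 1 / 2 := by
  unfold th
  have h1 : Real.exp (2 * s) ≤ Real.exp 1 := Real.exp_le_exp.2 (by linarith)
  have h2 := Real.exp_one_lt_d9
  rw [div_le_div_iff₀ (by positivity) (by norm_num)]
  linarith

theorem ath_th (s : ℝ) : ath (th s) = s := by
  unfold ath th
  have h0 := Real.exp_pos (2 * s)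
  have h1 : (1 + (Real.exp (2 * s) - 1) / (Real.exp (2 * s) + 1)) /
      (1 - (Real.exp (2 * s) - 1) / (Real.exp (2 * s) + 1)) = Real.exp (2 * s) := by
    have h2 : 1 - (Real.exp (2 * s) - 1) / (Real.exp (2 * s) + 1) = 2 / (Real.exp (2 * s) + 1) := by
      field_simp
      ring
    have h3 : 1 + (Real.exp (2 * s) - 1) / (Real.exp (2 * s) + 1) =
        2 * Real.exp (2 * s) / (Real.exp (2 * s) + 1) := by
      field_simp
      ring
    rw [h2, h3]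
    field_simp
  rw [h1, Real.log_exp]
  ring

theorem th_ath {m : ℝ} (h0 : 0 ≤ m) (h1 : m < 1) : th (ath m) = m := by
  unfold ath th
  have h2 : 0 < (1 + m) / (1 - m) := div_pos (by linarith) (by linarith)
  have h3 : 2 * (1 / 2 * Real.log ((1 + m) / (1 - m))) = Real.log ((1 + m) / (1 - m)) := by ring
  rw [h3, Real.exp_log h2]
  have h4 : 1 - m ≠ 0 := by linarith
  field_simp
  ring

theorem th_add (x s : ℝ) : th (x + s) = (th s + th x) / (1 + th x * th s) := by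
  unfold th
  rw [mul_add, Real.exp_add]
  have h1 := Real.exp_pos (2 * x)
  have h2 := Real.exp_pos (2 * s)
  set X := Real.exp (2 * x)
  set S := Real.exp (2 * s)
  have h3 : (S - 1) / (S + 1) + (X - 1) / (X + 1) = 2 * (X * S - 1) / ((X + 1) * (S + 1)) := by
    field_simp
    ring
  have h4 : 1 + (X - 1) / (X + 1) * ((S - 1) / (S + 1)) =
      2 * (X * S + 1) / ((X + 1) * (S + 1)) := by
    field_simp
    ring
  rw [h3, h4]
  field_simp

theorem ath_mul_le {θ r : ℝ} (h0 : 0 ≤ r) (h1 : r < 1) (hθ0 : 0 ≤ θ) (hθ1 : θ ≤ 1) :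
    ath (θ * r) ≤ θ * ath r := by
  have hr : |r| < 1 := by rwa [abs_of_nonneg h0]
  have h2 : 0 ≤ θ * r := mul_nonneg hθ0 h0
  have h3 : θ * r < 1 := by nlinarith
  have hθr : |θ * r| < 1 := by rwa [abs_of_nonneg h2]
  have e : ∀ x : ℝ, 0 ≤ x → x < 1 → ath x = 1 / 2 * (Real.log (1 + x) - Real.log (1 - x)) := by
    intro x hx0 hx1
    unfold ath
    rw [Real.log_div (by linarith) (by linarith)]
  rw [e _ h2 h3, e _ h0 h1]
  have s1 := Real.hasSum_log_sub_log_of_abs_lt_one hθr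
  have s2 := (Real.hasSum_log_sub_log_of_abs_lt_one hr).mul_left θ
  have h4 := hasSum_le (fun k => ?_) s1 s2
  · nlinarith
  · have h5 : (θ * r) ^ (2 * k + 1) ≤ θ * r ^ (2 * k + 1) := by
      rw [mul_pow]
      refine mul_le_mul_of_nonneg_right ?_ (by positivity)
      calc θ ^ (2 * k + 1) ≤ θ ^ 1 := pow_le_pow_of_le_one hθ0 hθ1 (by omega)
        _ = θ := pow_one θ
    have h6 : (0 : ℝ) ≤ 2 * (1 / (2 * (k : ℝ) + 1)) := by positivity
    calc 2 * (1 / (2 * (k : ℝ) + 1)) * (θ * r) ^ (2 * k + 1) ≤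
        2 * (1 / (2 * (k : ℝ) + 1)) * (θ * r ^ (2 * k + 1)) := mul_le_mul_of_nonneg_left h5 h6
      _ = θ * (2 * (1 / (2 * (k : ℝ) + 1)) * r ^ (2 * k + 1)) := by ring

/-! ### short discs -/

theorem add_mem_of (hc : Convex ℝ Ω) {c : E} {ε η : ℝ} (hε : 0 < ε) (hε1 : ε < 1)
    (hη : ball c η ⊆ Ω) {z v : E} (hz : z ∈ Ω) (hv : ‖v‖ < ε * η) :
    ((1 - ε : ℝ) : ℂ) • z + ((ε : ℝ) : ℂ) • c + v ∈ Ω := by
  have hεc : ((ε : ℝ) : ℂ) ≠ 0 := by exact_mod_cast hε.ne'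
  have h1 : c + ((ε : ℝ) : ℂ)⁻¹ • v ∈ Ω := by
    apply hη
    rw [mem_ball_iff_norm, add_sub_cancel_left, norm_smul, norm_inv, Complex.norm_real,
      Real.norm_of_nonneg hε.le, inv_mul_lt_iff₀ hε]
    exact hv
  have h2 := hc hz h1 (by linarith : (0 : ℝ) ≤ 1 - ε) hε.le (by ring)
  have h3 : ((1 - ε : ℝ) : ℂ) • z + ((ε : ℝ) : ℂ) • c + v =
      (1 - ε) • z + ε • (c + ((ε : ℝ) : ℂ)⁻¹ • v) := by
    change _ = ((1 - ε : ℝ) : ℂ) • z + ((ε : ℝ) : ℂ) • (c + ((ε : ℝ) : ℂ)⁻¹ • v)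
    rw [smul_add, smul_smul, mul_inv_cancel₀ hεc, one_smul, add_assoc]
  rw [h3]
  exact h2

theorem disc_lip {M : ℝ} (hM : ∀ x ∈ Ω, ‖x‖ ≤ M) (φ : ℂ → E)
    (hφ : DifferentiableOn ℂ φ (ball 0 1)) (hm : MapsTo φ (ball 0 1) Ω) {x y : ℂ}
    (hx : ‖x‖ ≤ 1 / 2) (hy : ‖y‖ ≤ 1 / 2) : ‖φ x - φ y‖ ≤ 4 * M * ‖x - y‖ := by
  have hd : ∀ ζ ∈ closedBall (0 : ℂ) (1 / 2), DifferentiableAt ℂ φ ζ := by
    intro ζ hζ
    apply hφ.differentiableAt
    apply isOpen_ball.mem_nhds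
    exact closedBall_subset_ball (by norm_num) hζ
  have hb : ∀ ζ ∈ closedBall (0 : ℂ) (1 / 2), ‖deriv φ ζ‖ ≤ 4 * M := by
    intro ζ hζ
    rw [mem_closedBall_zero_iff] at hζ
    have hsub : closedBall ζ (1 / 4) ⊆ ball (0 : ℂ) 1 := by
      intro ξ hξ
      rw [mem_closedBall_iff_norm] at hξ
      rw [mem_ball_zero_iff]
      have := norm_add_le (ξ - ζ) ζ
      rw [sub_add_cancel] at this
      linarith
    have h1 : DiffContOnCl ℂ φ (ball ζ (1 / 4)) := by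
      refine DifferentiableOn.diffContOnCl ?_
      rw [closure_ball ζ (by norm_num)]
      exact hφ.mono hsub
    have h2 := Complex.norm_deriv_le_of_forall_mem_sphere_norm_le (C := M)
      (by norm_num : (0 : ℝ) < 1 / 4) h1 (fun ξ hξ => hM _ (hm (hsub (sphere_subset_closedBall hξ))))
    linarith
  have := (convex_closedBall (0 : ℂ) (1 / 2)).norm_image_sub_le_of_norm_deriv_le hd hb
    (mem_closedBall_zero_iff.2 hy) (mem_closedBall_zero_iff.2 hx)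
  exact this

theorem short_disc (hc : Convex ℝ Ω) {c : E} {ε η M θ : ℝ} (hε : 0 < ε) (hε1 : ε < 1)
    (hη : ball c η ⊆ Ω) (hM : ∀ x ∈ Ω, ‖x‖ ≤ M) (hθ0 : 0 < θ) (hθ1 : θ < 1)
    (hθ : 4 * M * (1 - θ) < ε * η * θ) (φ : ℂ → E)
    (hφ : DifferentiableOn ℂ φ (ball 0 1)) (hm : MapsTo φ (ball 0 1) Ω) {r : ℝ} (hr0 : 0 < r)
    (hr : r ≤ 1 / 2) :
    kob Ω (((1 - ε : ℝ) : ℂ) • φ 0 + ((ε : ℝ) : ℂ) • c)
        (((1 - ε : ℝ) : ℂ) • φ (r : ℂ) + ((ε : ℝ) : ℂ) • c) ≤ θ * ath r := by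
  have hrc : (r : ℂ) ≠ 0 := by exact_mod_cast hr0.ne'
  have hθc : (θ : ℂ) ≠ 0 := by exact_mod_cast hθ0.ne'
  have hθr0 : 0 < θ * r := mul_pos hθ0 hr0
  have hθr1 : θ * r < 1 := by nlinarith
  set u : E := ((1 - ε : ℝ) : ℂ) • (φ (r : ℂ) - φ ((θ * r : ℝ) : ℂ)) with hu
  have hun : ‖u‖ ≤ 4 * M * (1 - θ) * r := by
    have h1 := disc_lip hM φ hφ hm (x := (r : ℂ)) (y := ((θ * r : ℝ) : ℂ)) (by
      rw [Complex.norm_real, Real.norm_of_nonneg hr0.le]
      exact hr) (by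
      rw [Complex.norm_real, Real.norm_of_nonneg hθr0.le]
      nlinarith)
    rw [← Complex.ofReal_sub, Complex.norm_real, Real.norm_of_nonneg (by nlinarith)] at h1
    rw [hu, norm_smul, Complex.norm_real, Real.norm_of_nonneg (by linarith)]
    have h2 := norm_nonneg (φ (r : ℂ) - φ ((θ * r : ℝ) : ℂ))
    have h3 : 4 * M * (r - θ * r) = 4 * M * (1 - θ) * r := by ring
    rw [h3] at h1
    nlinarith
  set ψ : ℂ → E := fun ζ => ((1 - ε : ℝ) : ℂ) • φ ζ + ((ε : ℝ) : ℂ) • c +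
    (ζ * ((θ * r : ℝ) : ℂ)⁻¹) • u with hψ
  have hψd : DifferentiableOn ℂ ψ (ball 0 1) := by
    refine ((hφ.const_smul _).add_const _).add ?_
    fun_prop
  have hψm : MapsTo ψ (ball 0 1) Ω := by
    intro ζ hζ
    apply add_mem_of hc hε hε1 hη (hm hζ)
    rw [mem_ball_zero_iff] at hζ
    rw [norm_smul, norm_mul, norm_inv, Complex.norm_real, Real.norm_of_nonneg hθr0.le]
    have h1 : ‖ζ‖ * (θ * r)⁻¹ * ‖u‖ ≤ (θ * r)⁻¹ * (4 * M * (1 - θ) * r) := by
      have h2 : ‖ζ‖ * (θ * r)⁻¹ ≤ (θ * r)⁻¹ := mul_le_of_le_one_left (by positivity) hζ.le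
      exact mul_le_mul h2 hun (norm_nonneg _) (by positivity)
    refine lt_of_le_of_lt h1 ?_
    rw [inv_mul_lt_iff₀ hθr0]
    nlinarith
  have h1 := H111.single (Ω := Ω) ψ 0 ((θ * r : ℝ) : ℂ) hψd hψm (mem_ball_self one_pos) (by
    rw [mem_ball_zero_iff, Complex.norm_real, Real.norm_of_nonneg hθr0.le]
    exact hθr1)
  have e1 : ψ 0 = ((1 - ε : ℝ) : ℂ) • φ 0 + ((ε : ℝ) : ℂ) • c := by
    simp [hψ]
  have e2 : ψ ((θ * r : ℝ) : ℂ) = ((1 - ε : ℝ) : ℂ) • φ (r : ℂ) + ((ε : ℝ) : ℂ) • c := by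
    have h2 : ((θ * r : ℝ) : ℂ) ≠ 0 := by exact_mod_cast hθr0.ne'
    rw [hψ]
    simp only
    rw [mul_inv_cancel₀ h2, one_smul, hu, smul_sub]
    abel
  rw [e1, e2, pdist_zero_left hθr0.le] at h1
  exact (kob_le_of_chain h1).trans (ath_mul_le hr0.le (by linarith) hθ0.le hθ1.le)

end H111

open H111

theorem homothety_contract [FiniteDimensional ℂ E] (hc : Convex ℝ Ω) (ho : IsOpen Ω)
    (hb : Bornology.IsBounded Ω) {c : E} (hcm : c ∈ Ω) {ε : ℝ} (hε : 0 < ε) (hε1 : ε < 1) :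
    ∃ θ : ℝ, 0 < θ ∧ θ < 1 ∧ ∀ z w : E, ∀ L : ℝ, DiscChain Ω z w L →
      kob Ω (((1 - ε : ℝ) : ℂ) • z + ((ε : ℝ) : ℂ) • c)
        (((1 - ε : ℝ) : ℂ) • w + ((ε : ℝ) : ℂ) • c) ≤ θ * L := by
  obtain ⟨η, hη0, hη⟩ := Metric.isOpen_iff.1 ho c hcm
  obtain ⟨M, hM⟩ := hb.exists_norm_le
  have hM0 : 0 ≤ M := (norm_nonneg c).trans (hM c hcm)
  have hδ : 0 < ε * η := mul_pos hε hη0
  set θ : ℝ := (4 * M + ε * η / 2) / (4 * M + ε * η) with hθdef
  have hden : 0 < 4 * M + ε * η := by linarith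
  have hθ0 : 0 < θ := div_pos (by linarith) hden
  have hθ1 : θ < 1 := by
    rw [hθdef, div_lt_one hden]
    linarith
  have hθ : 4 * M * (1 - θ) < ε * η * θ := by
    have h1 : θ * (4 * M + ε * η) = 4 * M + ε * η / 2 := by
      rw [hθdef, div_mul_cancel₀ _ hden.ne']
    nlinarith
  set h : E → E := fun z => ((1 - ε : ℝ) : ℂ) • z + ((ε : ℝ) : ℂ) • c with hh
  have hhΩ : ∀ z ∈ Ω, h z ∈ Ω := by
    intro z hz
    have := add_mem_of hc hε hε1 hη hz (v := 0) (by rw [norm_zero]; exact hδ)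
    rwa [add_zero] at this
  -- steps
  have step : ∀ φ : ℂ → E, DifferentiableOn ℂ φ (ball 0 1) → MapsTo φ (ball 0 1) Ω →
      ∀ x s : ℝ, 0 ≤ x → 0 ≤ s → s ≤ 1 / 2 →
        kob Ω (h (φ (th x : ℂ))) (h (φ (th (x + s) : ℂ))) ≤ θ * s := by
    intro φ hφ hm x s hx hs hs2
    have hthx : ‖(th x : ℂ)‖ < 1 := by
      rw [Complex.norm_real, Real.norm_of_nonneg (th_nonneg hx)]
      exact th_lt x
    rcases hs.eq_or_lt with rfl | hs0
    · rw [add_zero, mul_zero, kob_self]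
      exact hhΩ _ (hm (mem_ball_zero_iff.2 hthx))
    have h1 := short_disc hc hε hε1 hη hM hθ0 hθ1 hθ (fun ζ => φ (mob (th x : ℂ) ζ))
      (hφ.comp (mob_diff hthx) (mob_maps hthx)) (hm.comp (mob_maps hthx)) (th_pos hs0)
      (th_le_half hs2)
    have e1 : mob (th x : ℂ) (th s : ℂ) = (th (x + s) : ℂ) := by
      unfold mob
      rw [th_add, Complex.conj_ofReal]
      push_cast
      rfl
    simp only [mob_zero, e1, ath_th] at h1
    exact h1
  have steps : ∀ φ : ℂ → E, DifferentiableOn ℂ φ (ball 0 1) → MapsTo φ (ball 0 1) Ω →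
      ∀ s : ℝ, 0 ≤ s → s ≤ 1 / 2 → ∀ n : ℕ,
        kob Ω (h (φ 0)) (h (φ (th (n * s) : ℂ))) ≤ θ * (n * s) := by
    intro φ hφ hm s hs hs2 n
    have hin : ∀ x : ℝ, 0 ≤ x → φ (th x : ℂ) ∈ Ω := by
      intro x hx
      apply hm
      rw [mem_ball_zero_iff, Complex.norm_real, Real.norm_of_nonneg (th_nonneg hx)]
      exact th_lt x
    have h00 : φ 0 ∈ Ω := hm (mem_ball_self one_pos)
    induction n with
    | zero =>
      simp only [Nat.cast_zero, zero_mul, th_zero, Complex.ofReal_zero, mul_zero]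
      rw [kob_self (hhΩ _ h00)]
    | succ n ih =>
      have hns : 0 ≤ (n : ℝ) * s := by positivity
      have h1 := step φ hφ hm (n * s) s hns hs hs2
      have e : ((n + 1 : ℕ) : ℝ) * s = n * s + s := by
        push_cast
        ring
      rw [e]
      have h2 := kob_triangle hc ho (hhΩ _ h00) (hhΩ _ (hin _ hns))
        (hhΩ _ (hin (n * s + s) (by positivity)))
      have h3 : θ * (n * s + s) = θ * (n * s) + θ * s := by ring
      rw [h3]
      linarith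
  refine ⟨θ, hθ0, hθ1, ?_⟩
  intro z w L hL
  change kob Ω (h z) (h w) ≤ θ * L
  induction hL with
  | nil hz =>
    rw [kob_self (hhΩ _ hz), mul_zero]
  | @cons w L φ a b hφ hm ha hb h' ih =>
    obtain ⟨ψ, hψ, hψm, e0, e1⟩ := normalize φ a b hφ hm ha hb
    have ha' : ‖a‖ < 1 := by simpa using ha
    have hb' : ‖b‖ < 1 := by simpa using hb
    have hm0 := mm_nonneg a b
    have hm1 := mm_lt ha' hb'
    have hath := ath_nonneg hm0 hm1
    obtain ⟨n, hn⟩ := exists_nat_gt (2 * ath (mm a b))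
    have hn0 : (0 : ℝ) < n := lt_of_le_of_lt (by positivity) hn
    have h1 := steps ψ hψ hψm (ath (mm a b) / n) (by positivity) (by
      rw [div_le_iff₀ hn0]
      linarith) n
    have e2 : (n : ℝ) * (ath (mm a b) / n) = ath (mm a b) := by field_simp
    rw [e2, th_ath hm0 hm1, e0, e1] at h1
    have hw := (DiscChain.mem h').2.1
    have h2 := kob_triangle hc ho (hhΩ _ (hm ha)) (hhΩ _ (hm hb)) (hhΩ _ hw)
    rw [pdist_eq, mul_add]
    linarith

end Pool.TH332.DW
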