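import Pool.Agent.TH332.DW.Facts
import Pool.Agent.TH332.DW.Grad

/-!
# Basic properties of the Kobayashi distance (job 1621, helper111)
-/

set_option autoImplicit false

namespace Pool.TH332.DW
open Metric Set Filter Topology
variable {E : Type*} [NormedAddCommGroup E] [NormedSpace ℂ E] {Ω : Set E}

namespace H111

/-- the pseudohyperbolic distance -/
noncomputable def mm (a b : ℂ) : ℝ := ‖(a - b) / (1 - (starRingEnd ℂ) a * b)‖

theorem pdist_eq (a b : ℂ) : pdist a b = ath (mm a b) := rfl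

theorem den_ne {a b : ℂ} (ha : ‖a‖ < 1) (hb : ‖b‖ < 1) : 1 - (starRingEnd ℂ) a * b ≠ 0 := by
  intro h
  have h1 : (starRingEnd ℂ) a * b = 1 := (sub_eq_zero.1 h).symm
  have h2 : ‖(starRingEnd ℂ) a * b‖ = 1 := by rw [h1, norm_one]
  rw [norm_mul, RCLike.norm_conj] at h2
  nlinarith [norm_nonneg a, norm_nonneg b]

theorem key_id (a b : ℂ) : ‖1 - (starRingEnd ℂ) a * b‖ ^ 2 - ‖a - b‖ ^ 2 =
    (1 - ‖a‖ ^ 2) * (1 - ‖b‖ ^ 2) := by
  rw [← Complex.normSq_eq_norm_sq, ← Complex.normSq_eq_norm_sq, ← Complex.normSq_eq_norm_sq,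
    ← Complex.normSq_eq_norm_sq]
  simp only [Complex.normSq_apply, Complex.sub_re, Complex.sub_im, Complex.mul_re, Complex.mul_im,
    Complex.conj_re, Complex.conj_im, Complex.one_re, Complex.one_im]
  ring

theorem mm_nonneg (a b : ℂ) : 0 ≤ mm a b := norm_nonneg _

theorem mm_lt {a b : ℂ} (ha : ‖a‖ < 1) (hb : ‖b‖ < 1) : mm a b < 1 := by
  unfold mm
  rw [norm_div, div_lt_one (norm_pos_iff.2 (den_ne ha hb))]
  refine lt_of_pow_lt_pow_left₀ 2 (norm_nonneg _) ?_
  have h1 := key_id a b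
  have h2 : 0 < (1 - ‖a‖ ^ 2) * (1 - ‖b‖ ^ 2) := by
    apply mul_pos
    · nlinarith [norm_nonneg a]
    · nlinarith [norm_nonneg b]
  linarith

theorem mm_comm (a b : ℂ) : mm a b = mm b a := by
  unfold mm
  rw [norm_div, norm_div, norm_sub_rev]
  congr 1
  rw [← RCLike.norm_conj (1 - (starRingEnd ℂ) a * b)]
  congr 1
  rw [map_sub, map_one, map_mul, Complex.conj_conj, mul_comm]

theorem pdist_comm (a b : ℂ) : pdist a b = pdist b a := by
  rw [pdist_eq, pdist_eq, mm_comm]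

theorem ath_nonneg {r : ℝ} (h0 : 0 ≤ r) (h1 : r < 1) : 0 ≤ ath r := by
  unfold ath
  have : 1 ≤ (1 + r) / (1 - r) := by
    rw [one_le_div (by linarith)]
    linarith
  have := Real.log_nonneg this
  positivity

theorem ath_zero : ath 0 = 0 := by
  unfold ath
  simp

theorem pdist_nonneg {a b : ℂ} (ha : ‖a‖ < 1) (hb : ‖b‖ < 1) : 0 ≤ pdist a b := by
  rw [pdist_eq]
  exact ath_nonneg (mm_nonneg a b) (mm_lt ha hb)

theorem pdist_zero_left {r : ℝ} (h0 : 0 ≤ r) : pdist 0 (r : ℂ) = ath r := by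
  rw [pdist_eq]
  congr 1
  unfold mm
  simp [abs_of_nonneg h0]

theorem pdist_self (a : ℂ) : pdist a a = 0 := by
  rw [pdist_eq]
  unfold mm
  rw [sub_self, zero_div, norm_zero, ath_zero]

end H111

open H111

theorem DiscChain.mem {z w : E} {L : ℝ} (h : DiscChain Ω z w L) : z ∈ Ω ∧ w ∈ Ω ∧ 0 ≤ L := by
  induction h with
  | nil hz => exact ⟨hz, hz, le_rfl⟩
  | cons φ a b hφ hm ha hb h ih =>
    refine ⟨hm ha, ih.2.1, add_nonneg (pdist_nonneg ?_ ?_) ih.2.2⟩
    · simpa using ha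
    · simpa using hb

theorem kob_nonneg (Ω : Set E) (z w : E) : 0 ≤ kob Ω z w :=
  Real.sInf_nonneg fun _ hL => (DiscChain.mem hL).2.2

theorem kob_le_of_chain {z w : E} {L : ℝ} (h : DiscChain Ω z w L) : kob Ω z w ≤ L :=
  csInf_le ⟨0, fun _ hL => (DiscChain.mem hL).2.2⟩ h

theorem DiscChain.trans {z v w : E} {L M : ℝ} (h : DiscChain Ω z v L) (h' : DiscChain Ω v w M) :
    DiscChain Ω z w (L + M) := by
  induction h with
  | nil hz =>
    rw [zero_add]
    exact h'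
  | cons φ a b hφ hm ha hb h ih =>
    rw [add_assoc]
    exact DiscChain.cons φ a b hφ hm ha hb (ih h')

theorem H111.single (φ : ℂ → E) (a b : ℂ) (hφ : DifferentiableOn ℂ φ (ball 0 1))
    (hm : MapsTo φ (ball 0 1) Ω) (ha : a ∈ ball (0 : ℂ) 1) (hb : b ∈ ball (0 : ℂ) 1) :
    DiscChain Ω (φ a) (φ b) (pdist a b) := by
  have := DiscChain.cons φ a b hφ hm ha hb (DiscChain.nil (hm hb))
  rwa [add_zero] at this

theorem DiscChain.symm {z w : E} {L : ℝ} (h : DiscChain Ω z w L) : DiscChain Ω w z L := by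
  induction h with
  | nil hz => exact DiscChain.nil hz
  | cons φ a b hφ hm ha hb h ih =>
    have h1 := ih.trans (H111.single φ b a hφ hm hb ha)
    rw [pdist_comm b a, add_comm] at h1
    exact h1

/-- the affine disc -/
theorem H111.local_chain {z w : E} {r : ℝ} (hr : 0 < r) (hb : ball z r ⊆ Ω) (hw : ‖w - z‖ < r) :
    DiscChain Ω z w (ath (‖w - z‖ / r)) := by
  by_cases h0 : w = z
  · rw [h0, sub_self, norm_zero, zero_div, ath_zero]
    exact DiscChain.nil (hb (mem_ball_self hr))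
  have hn : 0 < ‖w - z‖ := norm_pos_iff.2 (sub_ne_zero.2 h0)
  have hq0 : 0 ≤ ‖w - z‖ / r := by positivity
  have hq1 : ‖w - z‖ / r < 1 := (div_lt_one hr).2 hw
  have h1 := H111.single (Ω := Ω) (fun ζ : ℂ => z + ζ • (((r / ‖w - z‖ : ℝ) : ℂ) • (w - z))) 0
    ((‖w - z‖ / r : ℝ) : ℂ) (by fun_prop) (by
      intro ζ hζ
      apply hb
      have hζ1 : ‖ζ‖ < 1 := by simpa using hζ
      rw [mem_ball_iff_norm, add_sub_cancel_left, norm_smul, norm_smul, Complex.norm_real,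
        Real.norm_of_nonneg (by positivity)]
      have : r / ‖w - z‖ * ‖w - z‖ = r := by field_simp
      rw [this]
      nlinarith) (mem_ball_self one_pos) (by
      rw [mem_ball_zero_iff, Complex.norm_real, Real.norm_of_nonneg hq0]
      exact hq1)
  have e1 : z + (0 : ℂ) • (((r / ‖w - z‖ : ℝ) : ℂ) • (w - z)) = z := by
    rw [zero_smul, add_zero]
  have e2 : z + ((‖w - z‖ / r : ℝ) : ℂ) • (((r / ‖w - z‖ : ℝ) : ℂ) • (w - z)) = w := by
    rw [smul_smul, ← Complex.ofReal_mul]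
    have : ‖w - z‖ / r * (r / ‖w - z‖) = 1 := by field_simp
    rw [this, Complex.ofReal_one, one_smul, add_sub_cancel]
  rw [e1, e2, pdist_zero_left hq0] at h1
  exact h1

theorem exists_chain (hc : Convex ℝ Ω) (ho : IsOpen Ω) {z w : E} (hz : z ∈ Ω) (hw : w ∈ Ω) :
    ∃ L, DiscChain Ω z w L := by
  set f : ℝ → E := fun t => z + (t : ℂ) • (w - z) with hf
  have hfc : Continuous f := by fun_prop
  have hsub : f '' Icc 0 1 ⊆ Ω := by
    rintro _ ⟨t, ⟨ht0, ht1⟩, rfl⟩
    have h1 := hc hz hw (sub_nonneg.2 ht1) ht0 (by ring)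
    have h2 : f t = (1 - t) • z + t • w := by
      change z + (t : ℂ) • (w - z) = ((1 - t : ℝ) : ℂ) • z + ((t : ℝ) : ℂ) • w
      rw [Complex.ofReal_sub, Complex.ofReal_one, sub_smul, one_smul, smul_sub]
      abel
    rw [h2]
    exact h1
  obtain ⟨δ, hδ, hδ2⟩ := (isCompact_Icc.image hfc).exists_thickening_subset_open ho hsub
  have hball : ∀ t ∈ Icc (0 : ℝ) 1, ball (f t) δ ⊆ Ω := by
    intro t ht x hx
    apply hδ2
    rw [mem_thickening_iff]
    exact ⟨f t, ⟨t, ht, rfl⟩, hx⟩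
  obtain ⟨n, hn⟩ := exists_nat_gt (‖w - z‖ / δ)
  have hn0 : (0 : ℝ) < n := lt_of_le_of_lt (by positivity) hn
  have key : ∀ i : ℕ, i ≤ n → ∃ L, DiscChain Ω z (f (i / n)) L := by
    intro i
    induction i with
    | zero =>
      intro _
      refine ⟨0, ?_⟩
      have : f ((0 : ℕ) / n) = z := by simp [hf]
      rw [this]
      exact DiscChain.nil hz
    | succ i ih =>
      intro hi
      obtain ⟨L, hL⟩ := ih (by omega)
      have hi' : ((i : ℝ) + 1) ≤ n := by exact_mod_cast hi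
      have hmem : (i : ℝ) / n ∈ Icc (0 : ℝ) 1 := by
        refine ⟨by positivity, ?_⟩
        rw [div_le_one hn0]
        linarith
      have hd : f ((i + 1 : ℕ) / n) - f (i / n) = ((1 / n : ℝ) : ℂ) • (w - z) := by
        simp only [hf]
        rw [add_sub_add_left_eq_sub, ← sub_smul, ← Complex.ofReal_sub]
        congr 2
        push_cast
        ring
      have h1 := H111.local_chain (Ω := Ω) (z := f (i / n)) (w := f ((i + 1 : ℕ) / n)) hδ
        (hball _ hmem) (by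
          rw [hd, norm_smul, Complex.norm_real, Real.norm_of_nonneg (by positivity)]
          rw [div_lt_iff₀ hδ] at hn
          rw [one_div, inv_mul_lt_iff₀ hn0]
          exact hn)
      exact ⟨_, hL.trans h1⟩
  obtain ⟨L, hL⟩ := key n le_rfl
  have : f (n / n) = w := by
    rw [div_self hn0.ne', hf]
    simp
  rw [this] at hL
  exact ⟨L, hL⟩

theorem exists_chain_lt (hc : Convex ℝ Ω) (ho : IsOpen Ω) {z w : E} (hz : z ∈ Ω) (hw : w ∈ Ω)
    {T : ℝ} (h : kob Ω z w < T) : ∃ L < T, DiscChain Ω z w L := by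
  obtain ⟨L, hL, h1⟩ := exists_lt_of_csInf_lt (exists_chain hc ho hz hw) h
  exact ⟨L, h1, hL⟩

theorem kob_self {z : E} (hz : z ∈ Ω) : kob Ω z z = 0 :=
  le_antisymm (kob_le_of_chain (DiscChain.nil hz)) (kob_nonneg Ω z z)

theorem kob_triangle (hc : Convex ℝ Ω) (ho : IsOpen Ω) {z v w : E} (hz : z ∈ Ω) (hv : v ∈ Ω)
    (hw : w ∈ Ω) : kob Ω z w ≤ kob Ω z v + kob Ω v w := by
  refine le_of_forall_pos_le_add fun ε hε => ?_
  obtain ⟨L, hL, h1⟩ := exists_chain_lt hc ho hz hv (T := kob Ω z v + ε / 2) (by linarith)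
  obtain ⟨M, hM, h2⟩ := exists_chain_lt hc ho hv hw (T := kob Ω v w + ε / 2) (by linarith)
  have := kob_le_of_chain (h1.trans h2)
  linarith

theorem kob_comm (Ω : Set E) (z w : E) : kob Ω z w = kob Ω w z := by
  unfold kob
  congr 1
  ext L
  exact ⟨fun h => DiscChain.symm h, fun h => DiscChain.symm h⟩

theorem H111.map_chain {E' : Type*} [NormedAddCommGroup E'] [NormedSpace ℂ E'] {Ω' : Set E'}
    {F : E → E'} (hF : DifferentiableOn ℂ F Ω) (hm : MapsTo F Ω Ω') {z w : E} {L : ℝ}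
    (h : DiscChain Ω z w L) : DiscChain Ω' (F z) (F w) L := by
  induction h with
  | nil hz => exact DiscChain.nil (hm hz)
  | cons φ a b hφ hm' ha hb h ih =>
    exact DiscChain.cons (F ∘ φ) a b (hF.comp hφ hm') (hm.comp hm') ha hb ih

theorem kob_map_le {E' : Type*} [NormedAddCommGroup E'] [NormedSpace ℂ E'] {Ω' : Set E'}
    (hc : Convex ℝ Ω) (ho : IsOpen Ω) {F : E → E'} (hF : DifferentiableOn ℂ F Ω)
    (hm : MapsTo F Ω Ω') {z w : E} (hz : z ∈ Ω) (hw : w ∈ Ω) :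
    kob Ω' (F z) (F w) ≤ kob Ω z w :=
  le_csInf (exists_chain hc ho hz hw) fun _ hL => kob_le_of_chain (H111.map_chain hF hm hL)

theorem kob_le_disc {φ : ℂ → E} {c : ℂ} {R : ℝ} (hR : 0 < R)
    (hφ : DifferentiableOn ℂ φ (ball c R)) (hm : MapsTo φ (ball c R) Ω)
    {α β : ℂ} (hα : α ∈ ball c R) (hβ : β ∈ ball c R) :
    kob Ω (φ α) (φ β) ≤ pdist ((α - c) / R) ((β - c) / R) := by
  have hRc : (R : ℂ) ≠ 0 := by exact_mod_cast hR.ne'
  have hmap : MapsTo (fun ζ : ℂ => c + R * ζ) (ball 0 1) (ball c R) := by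
    intro ζ hζ
    have hζ1 : ‖ζ‖ < 1 := by simpa using hζ
    rw [mem_ball_iff_norm, add_sub_cancel_left, norm_mul, Complex.norm_real,
      Real.norm_of_nonneg hR.le]
    nlinarith
  have hin : ∀ α ∈ ball c R, (α - c) / R ∈ ball (0 : ℂ) 1 := by
    intro α hα
    rw [mem_ball_zero_iff, norm_div, Complex.norm_real, Real.norm_of_nonneg hR.le, div_lt_one hR]
    exact mem_ball_iff_norm.1 hα
  have h1 := H111.single (Ω := Ω) (fun ζ : ℂ => φ (c + R * ζ)) ((α - c) / R) ((β - c) / R)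
    (hφ.comp (by fun_prop) hmap) (hm.comp hmap) (hin α hα) (hin β hβ)
  have e : ∀ α : ℂ, c + R * ((α - c) / R) = α := by
    intro α
    field_simp
    ring
  simp only [e] at h1
  exact kob_le_of_chain h1

theorem kob_local {z w : E} {r : ℝ} (hr : 0 < r) (hb : ball z r ⊆ Ω) (hw : ‖w - z‖ < r) :
    kob Ω z w ≤ ath (‖w - z‖ / r) :=
  kob_le_of_chain (H111.local_chain hr hb hw)

end Pool.TH332.DW
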